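import Pool.Agent.Lib.MP_a3e05c_co.IRR.Defs
import Pool.Agent.Lib.MP_a3e05c_co.S1.Hs
import Pool.Agent.Lib.MP_a3e05c_co.FLIP.Flip

/-!
# EULER, irregular graphs: cases C2 (one non-full neighbour), C3, C4 from the scalar facts
-/

open Finset

namespace MP_a3e05c_co.KL

variable {V E : Type} [Fintype V] [DecidableEq V] [Fintype E] [DecidableEq E]

/-- the gains of full vertices decrease with the degree -/
def HsAnti : Prop := ∀ a b : ℕ, Even a → Even b → 2 ≤ a → a ≤ b → KL.hs b ≤ KL.hs a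

/-- the gains of non-full vertices are nonnegative -/
def PhiMono : Prop := ∀ d k : ℕ, Even d → 1 ≤ k → k < d → phi d (k - 1) ≤ phi d k

/-- a vertex with a neighbour in a set has a positive degree -/
theorem kk_pos_of_nb {hd : E → Bool → V} (hs : Simple hd) {A : Finset V} {w u : V} (hw : w ∈ A)
    (hu : u ∈ nb hd A w) : 1 ≤ kk hd A u := by
  have h := kk_erase hs hw u
  rw [if_pos (mem_nb.1 hu).2] at h
  omega

omit [Fintype V] [DecidableEq E] in
/-- gain of a full neighbour -/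
theorem gain_full {hd : E → Bool → V} {A : Finset V} {u : V} (h : Full hd A u) :
    phi (deg hd u) (kk hd A u) - phi (deg hd u) (kk hd A u - 1) = KL.hs (deg hd u) := by
  unfold KL.hs
  rw [h, phi_full]

/-- gain of a full neighbour, lower bound -/
theorem gain_full_ge (hA : HsAnti) {hd : E → Bool → V} (hs : Simple hd)
    (hev : ∀ v, Even (deg hd v)) {A : Finset V} {w u : V} (hw : w ∈ A) (hu : u ∈ nb hd A w)
    (h : Full hd A u) {D : ℕ} (hDe : Even D) (hD : deg hd u ≤ D) :
    KL.hs D ≤ phi (deg hd u) (kk hd A u) - phi (deg hd u) (kk hd A u - 1) := by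
  rw [gain_full h]
  have h1 := kk_pos_of_nb hs hw hu
  rw [h] at h1
  obtain ⟨r, hr⟩ := hev u
  exact hA _ _ (hev u) hDe (by omega) hD

/-- all the gains -/
theorem gain_ge_full (hA : HsAnti) {hd : E → Bool → V} (hs : Simple hd)
    (hev : ∀ v, Even (deg hd v)) {A : Finset V} {w : V} (hw : w ∈ A) {D : ℕ} (hDe : Even D)
    (hall : ∀ u ∈ nb hd A w, Full hd A u) (hD : ∀ u ∈ nb hd A w, deg hd u ≤ D) :
    (kk hd A w : ℝ) * KL.hs D ≤ gain hd A w := by
  unfold gain
  have h2 := Finset.card_nsmul_le_sum (nb hd A w)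
    (fun u => phi (deg hd u) (kk hd A u) - phi (deg hd u) (kk hd A u - 1)) (KL.hs D)
    fun u hu => gain_full_ge hA hs hev hw hu (hall u hu) hDe (hD u hu)
  rwa [card_nb hs, nsmul_eq_mul] at h2

/-- **C2, one non-full neighbour.** -/
theorem red_C2_of (hA : HsAnti) (hM : PhiMono) {hd : E → Bool → V} (hs : Simple hd)
    (hev : ∀ v, Even (deg hd v)) {A : Finset V}
    {D : ℕ} (hT : Top hd A D) {w y : V} (hw : w ∈ A) (hwf : Full hd A w) (hwD : deg hd w = D)
    (hy : y ∈ nb hd A w) (hyk : kk hd A y < deg hd y)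
    (h1 : ∀ u ∈ nb hd A w, u ≠ y → Full hd A u)
    (hsc : TT D + KL.hs D ≤ Real.log (4 / 3)) : Red hd A := by
  have hDe : Even D := hwD ▸ hev w
  have hk : kk hd A w = D := hwf.trans hwD
  have hD1 : 1 ≤ D := by
    rw [← hk, ← card_nb hs]
    exact Finset.card_pos.2 ⟨y, hy⟩
  have hz : PA hd A ≤ Real.exp (Real.log (3 / 4)) * PA hd (A.erase w) := by
    rw [Real.exp_log (by norm_num)]
    exact flip_one hs hev hw hy hyk
  refine (Sl.erase hs hw hz).red ?_ (erase_ne hw)
  have h2 : ((D : ℝ) - 1) * KL.hs D ≤ gain hd A w := by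
    unfold gain
    rw [← Finset.add_sum_erase _ _ hy]
    have h3 : 0 ≤ phi (deg hd y) (kk hd A y) - phi (deg hd y) (kk hd A y - 1) :=
      sub_nonneg.2 (hM _ _ (hev y) (kk_pos_of_nb hs hw hy) hyk)
    have h4 := Finset.card_nsmul_le_sum ((nb hd A w).erase y)
      (fun u => phi (deg hd u) (kk hd A u) - phi (deg hd u) (kk hd A u - 1)) (KL.hs D)
      fun u hu => gain_full_ge hA hs hev hw (mem_of_mem_erase hu)
        (h1 u (mem_of_mem_erase hu) (ne_of_mem_erase hu)) hDe
        (by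
          have h5 := h1 u (mem_of_mem_erase hu) (ne_of_mem_erase hu)
          rw [← h5]
          exact hT.le u (mem_nb.1 (mem_of_mem_erase hu)).1)
    rw [card_erase_of_mem hy, card_nb hs, hk, nsmul_eq_mul, Nat.cast_sub hD1, Nat.cast_one] at h4
    linarith
  have h5 := TT_eq hD1
  have h6 : Real.log (3 / 4) = -Real.log (4 / 3) := by
    rw [← Real.log_inv]
    norm_num
  rw [hwD, hk, phi_full, h6]
  linarith

/-- **C3.** -/
theorem red_C3_of (hA : HsAnti) {hd : E → Bool → V} (hs : Simple hd)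
    (hev : ∀ v, Even (deg hd v)) {A : Finset V}
    {D : ℕ} (hT : Top hd A D) {w x y : V} (hw : w ∈ A) (hwf : Full hd A w) (hwD : deg hd w = D)
    (hx : x ∈ nb hd A w) (hy : y ∈ nb hd A x) (hyw : y ≠ w) (hyk : kk hd A y < deg hd y)
    (hall : ∀ u ∈ nb hd A w, Full hd A u)
    (hsc : TT D ≤ Real.log (8 / 7)) : Red hd A := by
  have hDe : Even D := hwD ▸ hev w
  have hk : kk hd A w = D := hwf.trans hwD
  have hD1 : 1 ≤ D := by
    rw [← hk, ← card_nb hs]
    exact Finset.card_pos.2 ⟨x, hx⟩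
  have hz : PA hd A ≤ Real.exp (Real.log (7 / 8)) * PA hd (A.erase w) := by
    rw [Real.exp_log (by norm_num)]
    exact flip_two hs hev hw hx hy hyw hyk
  refine (Sl.erase hs hw hz).red ?_ (erase_ne hw)
  have h2 := gain_ge_full hA hs hev hw hDe hall fun u hu => by
    rw [← hall u hu]
    exact hT.le u (mem_nb.1 hu).1
  rw [hk] at h2
  have h5 := TT_eq hD1
  have h6 : Real.log (7 / 8) = -Real.log (8 / 7) := by
    rw [← Real.log_inv]
    norm_num
  rw [hwD, hk, phi_full, h6]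
  linarith

/-- **C4.** -/
theorem red_C4_of (hA : HsAnti) {hd : E → Bool → V} (hs : Simple hd)
    (hev : ∀ v, Even (deg hd v)) {A : Finset V}
    {D : ℕ} (hT : Top hd A D) {w : V} (hw : w ∈ A) (hwf : Full hd A w) (hwD : deg hd w = D)
    (hall : ∀ u ∈ nb hd A w, Full hd A u) (hlow : ∀ u ∈ nb hd A w, deg hd u ≠ D)
    (hsc0 : 0 ≤ AA 0)
    (hsc : 4 ≤ D → 0 ≤ AA D + (D : ℝ) * KL.hs (D - 2)) : Red hd A := by
  have hDe : Even D := hwD ▸ hev w
  have hk : kk hd A w = D := hwf.trans hwD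
  have hlow' : ∀ u ∈ nb hd A w, deg hd u ≤ D - 2 ∧ 4 ≤ D := by
    intro u hu
    have h1 : deg hd u ≤ D := by
      rw [← hall u hu]
      exact hT.le u (mem_nb.1 hu).1
    have h2 := hlow u hu
    have h3 := kk_pos_of_nb hs hw hu
    rw [hall u hu] at h3
    obtain ⟨r, hr⟩ := hev u
    obtain ⟨r', hr'⟩ := hDe
    omega
  refine (Sl.free hs hw).red ?_ (erase_ne hw)
  rw [hwD, hk, phi_full]
  rcases (nb hd A w).eq_empty_or_nonempty with h0 | ⟨u, hu⟩
  · have h1 : D = 0 := by
      rw [← hk, ← card_nb hs, h0, card_empty]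
    subst h1
    unfold gain
    rw [h0, Finset.sum_empty, add_zero]
    exact hsc0
  · have h4 := (hlow' u hu).2
    have hDe2 : Even (D - 2) := by
      obtain ⟨r', hr'⟩ := hDe
      exact ⟨r' - 1, by omega⟩
    have h2 := gain_ge_full hA hs hev hw hDe2 hall fun u hu => (hlow' u hu).1
    rw [hk] at h2
    linarith [hsc h4]

end MP_a3e05c_co.KL
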