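import Pool.Agent.Lib.MP_a3e05c_co.NUM.TabA
import Pool.Agent.Lib.MP_a3e05c_co.S1.Hs
import Pool.Agent.Lib.MP_a3e05c_co.KL.BridgeB

/-!
# EULER, irregular graphs: the number of the case C4
-/

open Finset

namespace MP_a3e05c_co.KL

private theorem numC4_gen (hRT : RTmain) : NUM.RTgen := by
  intro n hn h
  obtain ⟨m, rfl⟩ := hn
  have h1 := hRT (2 * m + 1) ⟨m, rfl⟩ h
  have h2 : 0 < PK (2 * m + 1) := by
    unfold PK
    have := RT_pos m
    positivity
  rwa [Real.le_log_iff_exp_le h2] at h1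

/-- the lower bound of `S * (AA D + D hs (D - 2))` -/
def numC4_f (D : ℕ) : ℤ := D * NUM.pL (D - 2) (D - 3) - NUM.aU D - D * NUM.aU (D - 2)

private theorem numC4_small (hRT : RTmain) (hR : NUM.RTlow) {D : ℕ} (hD : Even D) (h : 4 ≤ D)
    (hf : 0 ≤ numC4_f D) : 0 ≤ AA D + D * hs (D - 2) := by
  have hP := numC4_gen hRT
  have h1 := NUM.le_aU hR hP hD (by omega)
  have hD2 : Even (D - 2) := by
    obtain ⟨r, rfl⟩ := hD
    exact ⟨r - 1, by omega⟩
  have h2 := NUM.le_aU hR hP hD2 (by omega)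
  have h3 := NUM.pL_le (d := D - 2) (k := D - 3) (by omega) (by omega)
  have hS := NUM.S_pos
  have h4 : (0 : ℝ) ≤ (numC4_f D : ℝ) := by exact_mod_cast hf
  unfold numC4_f at h4
  push_cast at h4
  have hD0 : (0 : ℝ) ≤ (D : ℝ) := Nat.cast_nonneg D
  have h5 := mul_le_mul_of_nonneg_left h2 hD0
  have h6 := mul_le_mul_of_nonneg_left h3 hD0
  have h7 : hs (D - 2) = AA (D - 2) - phi (D - 2) (D - 3) := rfl
  rw [h7]
  have h8 : 0 ≤ (NUM.S : ℝ) * (AA D + D * (AA (D - 2) - phi (D - 2) (D - 3))) := by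
    have : (NUM.S : ℝ) * (AA D + D * (AA (D - 2) - phi (D - 2) (D - 3))) =
        -(NUM.S * -AA D) - D * (NUM.S * -AA (D - 2)) + D * (NUM.S * -phi (D - 2) (D - 3)) := by
      ring
    rw [this]
    linarith
  exact nonneg_of_mul_nonneg_right h8 hS

private theorem numC4_chk : (0 ≤ numC4_f 4 ∧ 0 ≤ numC4_f 6 ∧ 0 ≤ numC4_f 8 ∧ 0 ≤ numC4_f 10 ∧
    0 ≤ numC4_f 12) ∧ 0 ≤ numC4_f 14 ∧ 0 ≤ numC4_f 16 ∧ 0 ≤ numC4_f 18 ∧ 0 ≤ numC4_f 20 ∧
    0 ≤ numC4_f 22 := by
  decide +kernel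

private theorem numC4_pi_half : (4 / 10 : ℝ) ≤ Real.log (Real.pi / 2) := by
  have hp := Real.pi_gt_d2
  have h1 := Real.one_sub_inv_le_log_of_pos (x := 5 / 4) (by norm_num)
  have h2 : Real.log ((5 / 4) ^ 2) ≤ Real.log (Real.pi / 2) := by
    apply Real.log_le_log (by norm_num)
    norm_num at hp ⊢
    linarith
  rw [Real.log_pow] at h2
  norm_num at h1 h2 ⊢
  linarith

/-- the inequality of the main terms, `n = D - 1` -/
private theorem numC4_main {n l c x : ℝ} (hn : 23 ≤ n) (hl : 3 ≤ l) (hc : 4 / 10 ≤ c)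
    (hx : x ≤ l + 2 / n) :
    n * (n - 1) * (n * x + (n + 1) * c + 1) ≤
      (n + 1) * (n + 2) * ((n - 2) * l + (n - 1) * c + 1 - l - 1 / 10) := by
  have hn0 : 0 < n := by linarith
  have h1 : n * x ≤ n * l + 2 := by
    have := mul_le_mul_of_nonneg_left hx hn0.le
    have h2 : n * (l + 2 / n) = n * l + 2 := by
      field_simp
    linarith
  have h2 : n * (n - 1) * (n * x + (n + 1) * c + 1) ≤
      n * (n - 1) * (n * l + 2 + (n + 1) * c + 1) := by
    apply mul_le_mul_of_nonneg_left (by linarith) (by nlinarith)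
  refine h2.trans ?_
  have h3 : (n + 1) * (n + 2) * ((n - 2) * l + (n - 1) * c + 1 - l - 1 / 10) -
      n * (n - 1) * (n * l + 2 + (n + 1) * c + 1) =
      (n ^ 2 - 7 * n - 6) * (l - 3) + (2 * n ^ 2 - 2) * (c - 4 / 10) +
      (17 / 10 * n ^ 2 - 153 / 10 * n - 17) := by
    ring
  have h4 : 0 ≤ (n ^ 2 - 7 * n - 6) * (l - 3) := by
    apply mul_nonneg (by nlinarith) (by linarith)
  have h5 : 0 ≤ (2 * n ^ 2 - 2) * (c - 4 / 10) := by
    apply mul_nonneg (by nlinarith) (by linarith)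
  have h6 : 0 ≤ 17 / 10 * n ^ 2 - 153 / 10 * n - 17 := by nlinarith
  linarith

private theorem numC4_large (hRT : RTmain) {D : ℕ} (hD : Even D) (h : 24 ≤ D) :
    0 ≤ AA D + D * hs (D - 2) := by
  obtain ⟨d, rfl⟩ : ∃ d, D = d + 2 := ⟨D - 2, by omega⟩
  have hd : Even d := by
    obtain ⟨r, hr⟩ := hD
    exact ⟨r - 1, by omega⟩
  have e1 : d + 2 - 2 = d := rfl
  rw [e1]
  have h1 := TT_eq (d := d) (by omega)
  have h2 := TT_eq_Ud (d := d) (by omega)
  have h3 := NCS.Ud_le d hd (by omega)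
  have h4 := hRT (d + 1) hd.add_one (by omega)
  have h5 := hRT (d + 2 + 1) hD.add_one (by omega)
  have hA : Real.log (PK (d + 1)) = ((d : ℝ) + 1) * AA d := by
    unfold AA
    field_simp
  have hA2 : Real.log (PK (d + 2 + 1)) = ((d : ℝ) + 3) * AA (d + 2) := by
    unfold AA
    push_cast
    have : (d : ℝ) + 2 + 1 ≠ 0 := by positivity
    have e : (d : ℝ) + 3 = d + 2 + 1 := by ring
    rw [e]
    field_simp
  set n : ℝ := (d : ℝ) + 1 with hn
  have hn23 : 23 ≤ n := by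
    have : (22 : ℝ) ≤ (d : ℝ) := by exact_mod_cast (show 22 ≤ d by omega)
    linarith
  have hn0 : 0 < n := by linarith
  set l := Real.log n with hl
  set c := Real.log (Real.pi / 2) with hc
  have hl3 : 3 ≤ l := by
    rw [hl, Real.le_log_iff_exp_le hn0]
    have h6 := Real.exp_one_lt_d9
    have h7 : Real.exp 3 = Real.exp 1 ^ 3 := by
      rw [← Real.exp_nat_mul]
      norm_num
    rw [h7]
    have h8 : Real.exp 1 ^ 3 ≤ 2.7182818286 ^ 3 :=
      pow_le_pow_left₀ (Real.exp_pos 1).le h6.le 3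
    norm_num at h8 ⊢
    linarith
  have hpi := numC4_pi_half
  have hx : Real.log (n + 2) ≤ l + 2 / n := by
    have h6 := Real.log_le_sub_one_of_pos (x := (n + 2) / n) (by positivity)
    rw [Real.log_div (by positivity) hn0.ne'] at h6
    have h7 : (n + 2) / n = 1 + 2 / n := by
      field_simp
    rw [h7] at h6
    linarith
  have key := numC4_main hn23 hl3 hpi hx
  have hlog : ∀ y : ℝ, 0 < y → Real.log (Real.pi * y / 2) = c + Real.log y := by
    intro y hy
    have hp := Real.pi_pos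
    rw [hc, ← Real.log_mul (by positivity) hy.ne']
    congr 1
    ring
  have hM : -2 * NCS.mainR n = (n - 2) * l + (n - 1) * c + 1 := by
    unfold NCS.mainR
    rw [hlog n hn0, ← hl]
    ring
  have hM2 : -2 * NCS.mainR (n + 2) = n * Real.log (n + 2) + (n + 1) * c + 1 := by
    unfold NCS.mainR
    rw [hlog (n + 2) (by linarith)]
    ring
  have e2 : ((d + 1 : ℕ) : ℝ) = n := by push_cast; rfl
  have e3 : ((d + 2 + 1 : ℕ) : ℝ) = n + 2 := by push_cast; rw [hn]; ring
  rw [e2] at h4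
  rw [e3, hA2] at h5
  rw [hA] at h2 h4
  have e4 : ((d + 2 : ℕ) : ℝ) = n + 1 := by push_cast; rw [hn]; ring
  rw [e4]
  have e5 : (d : ℝ) + 3 = n + 2 := by rw [hn]; ring
  rw [e5] at h5
  have e6 : (d : ℝ) = n - 1 := by rw [hn]; ring
  rw [e6] at h1
  -- `(n - 1) hs = (n - 1) AA - Ud`
  have h6 : (n - 1) * hs d = (n - 1) * AA d - NCS.Ud d := by
    rw [h2] at h1
    linarith
  have h7 : -NCS.mainR n / n - (l / 2 + 1 / 20) / n ≤ (n - 1) * hs d := by
    rw [h6]
    have h8 : NCS.mainR n / n ≤ AA d := by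
      rw [div_le_iff₀ hn0]
      linarith
    have h9 : (n - 1) * (NCS.mainR n / n) ≤ (n - 1) * AA d :=
      mul_le_mul_of_nonneg_left h8 (by linarith)
    have h10 : (n - 1) * (NCS.mainR n / n) = NCS.mainR n - NCS.mainR n / n := by
      field_simp
    rw [neg_div]
    linarith
  have h8 : NCS.mainR (n + 2) / (n + 2) ≤ AA (d + 2) := by
    rw [div_le_iff₀ (by linarith)]
    linarith
  have h9 : (n + 1) * ((-NCS.mainR n / n - (l / 2 + 1 / 20) / n) / (n - 1)) ≤ (n + 1) * hs d := by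
    apply mul_le_mul_of_nonneg_left _ (by linarith)
    rw [div_le_iff₀ (by linarith)]
    linarith
  have h10 : 0 ≤ NCS.mainR (n + 2) / (n + 2) +
      (n + 1) * ((-NCS.mainR n / n - (l / 2 + 1 / 20) / n) / (n - 1)) := by
    have h11 : NCS.mainR (n + 2) / (n + 2) +
        (n + 1) * ((-NCS.mainR n / n - (l / 2 + 1 / 20) / n) / (n - 1)) =
        ((n + 1) * (n + 2) * (-2 * NCS.mainR n - l - 1 / 10) -
          n * (n - 1) * (-2 * NCS.mainR (n + 2))) / (2 * (n * (n - 1) * (n + 2))) := by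
      have : n - 1 ≠ 0 := by linarith
      have : n + 2 ≠ 0 := by linarith
      field_simp
      ring
    rw [h11]
    apply div_nonneg
    · rw [hM, hM2]
      linarith
    · have : 0 < n - 1 := by linarith
      positivity
  linarith

/-- **The number of the case C4.** -/
theorem S5_num (hRT : RTmain) (hR : NUM.RTlow) {D : ℕ} (hD : Even D) (h : 4 ≤ D) :
    0 ≤ AA D + D * hs (D - 2) := by
  rcases Nat.lt_or_ge D 24 with h24 | h24
  · obtain ⟨⟨c4, c6, c8, c10, c12⟩, c14, c16, c18, c20, c22⟩ := numC4_chk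
    apply numC4_small hRT hR hD h
    obtain ⟨r, rfl⟩ := hD
    have hr : r = 2 ∨ r = 3 ∨ r = 4 ∨ r = 5 ∨ r = 6 ∨ r = 7 ∨ r = 8 ∨ r = 9 ∨ r = 10 ∨ r = 11 := by
      omega
    rcases hr with rfl | rfl | rfl | rfl | rfl | rfl | rfl | rfl | rfl | rfl
    · exact c4
    · exact c6
    · exact c8
    · exact c10
    · exact c12
    · exact c14
    · exact c16
    · exact c18
    · exact c20
    · exact c22
  · exact numC4_large hRT hD h24

end MP_a3e05c_co.KL
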