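import Pool.Agent.Lib.MP_a3e05c_co.IRR.Case234

/-!
# EULER, irregular graphs: small scalar facts for the cases C2, C3, C4
-/

open Finset

namespace MP_a3e05c_co.KL

theorem AA_zero : AA 0 = 0 := by
  have h : RT 1 = 1 := by
    unfold RT
    decide
  unfold AA PK
  rw [zero_add, h]
  norm_num

theorem phiMono : PhiMono := by
  intro d k _ _ hk
  have h2 : k - 1 < d := by omega
  rw [phi_G hk, phi_G h2]
  have h3 : ((k : ℕ) : ℝ) ≤ (d : ℝ) - 1 := by
    have : ((k + 1 : ℕ) : ℝ) ≤ (d : ℝ) := by exact_mod_cast hk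
    push_cast at this
    linarith
  have h4 := hp_nonneg h3
  unfold hp at h4
  linarith

end MP_a3e05c_co.KL
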