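import Pool.Agent.Lib.MP_a3e05c_co.IRR.Defs
import Pool.Agent.Lib.MP_a3e05c_co.S1.S1
import Pool.Agent.Lib.MP_a3e05c_co.S1.Facts

/-!
# EULER, final induction: case C1, a non-full vertex with the largest number of alive neighbours
-/

open Finset

namespace MP_a3e05c_co.KL

variable {V E : Type} [Fintype V] [DecidableEq V] [Fintype E] [DecidableEq E]

/-- **S1 in the graph**: a non-full vertex with at least as many alive neighbours as each of its
neighbours is deleted without loss -/
theorem sl_one {hd : E → Bool → V} (hs : Simple hd) (hev : ∀ v, Even (deg hd v)) {A : Finset V}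
    {w : V} (hw : w ∈ A) (hlt : kk hd A w < deg hd w)
    (hmax : ∀ v ∈ nb hd A w, kk hd A v ≤ kk hd A w) : Sl hd A (A.erase w) 0 := by
  have hcard : Fintype.card {u // u ∈ nb hd A w} = kk hd A w := by
    rw [Fintype.card_coe, card_nb hs]
  let e : Fin (kk hd A w) ≃ {u // u ∈ nb hd A w} := (Fintype.equivFinOfCardEq hcard).symm
  have hsum : ∀ g : V → ℝ, ∑ i, g (e i).1 = ∑ u ∈ nb hd A w, g u := by
    intro g
    rw [e.sum_comp (fun u : {u // u ∈ nb hd A w} => g u.1)]
    exact Finset.sum_coe_sort (nb hd A w) g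
  have h1 := S1_step rt_main rt_low (hev w) hlt (fun i => deg hd (e i).1)
    (fun i => kk hd A (e i).1) (fun i => hev _) (fun i => by
      obtain ⟨hu, hadj⟩ := mem_nb.1 (e i).2
      have h3 := kk_erase hs hw (e i).1
      rw [if_pos hadj] at h3
      omega) (fun i => kk_le_deg hs A _) (fun i => hmax _ (e i).2)
  rw [hsum (fun u => rh (deg hd u) (kk hd A u)),
    hsum (fun u => phi (deg hd u) (kk hd A u) - phi (deg hd u) (kk hd A u - 1))] at h1
  have h2 := Sl.step hs hev hw h1
  refine h2.mono (le_of_eq ?_)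
  unfold gain
  ring

/-- the same as an inequality -/
theorem step_one {hd : E → Bool → V} (hs : Simple hd) (hev : ∀ v, Even (deg hd v)) {A : Finset V}
    {w : V} (hw : w ∈ A) (hlt : kk hd A w < deg hd w)
    (hmax : ∀ v ∈ nb hd A w, kk hd A v ≤ kk hd A w) :
    PA hd A ≤ Real.exp (phi (deg hd w) (kk hd A w) + gain hd A w) * PA hd (A.erase w) := by
  have h := (sl_one hs hev hw hlt hmax).2
  refine h.trans (le_of_eq ?_)
  rw [pot_erase hs hw]
  congr 2
  ring

/-- `Sl.step` and the scalar theorem `S1_step` -/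
theorem red_C1 {hd : E → Bool → V} (hs : Simple hd) (hev : ∀ v, Even (deg hd v)) {A : Finset V}
    {w : V} (hw : w ∈ A) (hlt : kk hd A w < deg hd w) (hmax : ∀ v ∈ A, kk hd A v ≤ kk hd A w) :
    Red hd A :=
  (sl_one hs hev hw hlt fun v hv => hmax v (mem_nb.1 hv).1).red le_rfl (erase_ne hw)

end MP_a3e05c_co.KL
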