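import Pool.Agent.Lib.MP_a3e05c_co.IRR.HsAnti
import Pool.Agent.Lib.MP_a3e05c_co.IRR.Small

/-!
# EULER, final induction: case C3, a full vertex of maximal degree with a non-full vertex at distance two
-/

open Finset

namespace MP_a3e05c_co.KL

variable {V E : Type} [Fintype V] [DecidableEq V] [Fintype E] [DecidableEq E]

/-- path flip `flip_two`: `log (8 / 7) ≥ T_D` -/
theorem red_C3 {hd : E → Bool → V} (hs : Simple hd) (hev : ∀ v, Even (deg hd v)) {A : Finset V}
    {D : ℕ} (hT : Top hd A D) {w x y : V} (hw : w ∈ A) (hwf : Full hd A w) (hwD : deg hd w = D)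
    (hx : x ∈ nb hd A w) (hy : y ∈ nb hd A x) (hyw : y ≠ w) (hyk : kk hd A y < deg hd y)
    (hall : ∀ u ∈ nb hd A w, Full hd A u) : Red hd A := by
  have hDe : Even D := hwD ▸ hev w
  have hk : kk hd A w = D := hwf.trans hwD
  have hD1 : 1 ≤ D := by
    rw [← hk, ← card_nb hs]
    exact Finset.card_pos.2 ⟨x, hx⟩
  have hD2 : 2 ≤ D := by
    obtain ⟨r, hr⟩ := hDe
    omega
  exact red_C3_of hs_anti hs hev hT hw hwf hwD hx hy hyw hyk hall (S4_num rt_main rt_low hDe hD2)

end MP_a3e05c_co.KL
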