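import Pool.Agent.Lib.MP_a3e05c_co.IRR.HsAnti
import Pool.Agent.Lib.MP_a3e05c_co.IRR.Small

/-!
# EULER, final induction: case C4, a full vertex of maximal degree without neighbours of maximal degree
-/

open Finset

namespace MP_a3e05c_co.KL

variable {V E : Type} [Fintype V] [DecidableEq V] [Fintype E] [DecidableEq E]

/-- `A_D + D hs (D - 2) ≥ 0` (and `AA 0 = 0` for `D = 0`, no such vertex for `D = 2`) -/
theorem red_C4 {hd : E → Bool → V} (hs : Simple hd) (hev : ∀ v, Even (deg hd v)) {A : Finset V}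
    {D : ℕ} (hT : Top hd A D) {w : V} (hw : w ∈ A) (hwf : Full hd A w) (hwD : deg hd w = D)
    (hall : ∀ u ∈ nb hd A w, Full hd A u) (hlow : ∀ u ∈ nb hd A w, deg hd u ≠ D) :
    Red hd A :=
  red_C4_of hs_anti hs hev hT hw hwf hwD hall hlow AA_zero.ge fun h => s5 (hwD ▸ hev w) h

end MP_a3e05c_co.KL
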