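import Pool.Agent.Lib.MP_a3e05c_co.IRR.Small
import Pool.Agent.Lib.MP_a3e05c_co.S1.HsTab
import Pool.Agent.Lib.MP_a3e05c_co.KL.CliqueUp

/-!
# EULER, irregular graphs: the two numbers of the cases C2 (one non-full neighbour) and C3
-/

open Finset

namespace MP_a3e05c_co.KL

theorem NumC23_RT3 : RT 3 = 2 := by
  unfold RT
  decide +kernel

theorem NumC23_PK3 : Real.log (PK 3) = -(2 * Real.log 2) := by
  unfold PK
  rw [NumC23_RT3]
  have h : (((2 : ℕ) : ℝ) / 2 ^ (3 * (3 - 1) / 2)) = (2 ^ 2)⁻¹ := by norm_num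
  rw [h, Real.log_inv, Real.log_pow]
  norm_num

theorem NumC23_ffp2 : ∑ j ∈ range 2, ffp 2 j = -(2 * Real.log 2) := by
  have hb : Real.log (bb (2 / 2)) = -Real.log 2 := by
    have h1 := bb_succ 0
    have h0 : bb 0 = 1 := bb_zero
    have h2 : bb (2 / 2) = 2⁻¹ := by
      have h3 : (2 / 2 : ℕ) = 0 + 1 := rfl
      rw [h3]
      rw [h0] at h1
      push_cast at h1
      linarith
    rw [h2, Real.log_inv]
  rw [Finset.sum_range_succ, Finset.sum_range_one]
  unfold ffp
  rw [hb, gg_zero, gg_one]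
  ring

theorem TT_two : TT 2 = 0 := by
  unfold TT AA
  rw [NumC23_ffp2, NumC23_PK3]
  push_cast
  ring

theorem hs_two : hs 2 = Real.log 2 / 3 := by
  have h := TT_eq (d := 2) (by norm_num)
  rw [TT_two] at h
  have h2 : AA 2 = -(2 * Real.log 2) / 3 := by
    unfold AA
    rw [NumC23_PK3]
    norm_num
  rw [h2] at h
  push_cast at h
  linarith

/-- the loss is nonnegative -/
theorem TT_nonneg {d : ℕ} (hd : Even d) (h : 2 ≤ d) : 0 ≤ TT d := by
  rcases Nat.lt_or_ge d 4 with h4 | h4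
  · have h2 : d = 2 := by
      obtain ⟨r, rfl⟩ := hd
      omega
    rw [h2, TT_two]
  · rw [TT_eq_Ud h]
    have := PK_le_Ud hd h4
    linarith

private theorem NumC23_log {x : ℝ} (hx : 0 < x) (k : ℕ) :
    Real.log x ≤ k * Real.log 2 - 1 + x / 2 ^ k := by
  have h1 := Real.log_le_sub_one_of_pos (x := x / 2 ^ k) (by positivity)
  rw [Real.log_div hx.ne' (by positivity), Real.log_pow] at h1
  linarith

/-- all losses are at most `.0803` -/
theorem TT_le_all (hRT : RTmain) (hR : NUM.RTlow) {d : ℕ} (hd : Even d) (h : 2 ≤ d) :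
    TT d ≤ 803 / 10000 := by
  rcases Nat.lt_or_ge d 22 with h22 | h22
  · obtain ⟨t2, t4, t6, t8, t10, t12, t14, t16, t18, t20, -⟩ := TT_tab hR
    obtain ⟨r, rfl⟩ := hd
    have hr : r = 1 ∨ r = 2 ∨ r = 3 ∨ r = 4 ∨ r = 5 ∨ r = 6 ∨ r = 7 ∨ r = 8 ∨ r = 9 ∨ r = 10 := by
      omega
    rcases hr with rfl | rfl | rfl | rfl | rfl | rfl | rfl | rfl | rfl | rfl <;>
      norm_num at t2 t4 t6 t8 t10 t12 t14 t16 t18 t20 ⊢ <;> linarith
  · have h1 := TT_le hRT hd h22
    have hd22 : (22 : ℝ) ≤ (d : ℝ) := by exact_mod_cast h22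
    refine h1.trans ?_
    rw [div_le_iff₀ (by linarith)]
    have h2 := NumC23_log (x := (d : ℝ) + 1) (by linarith) 5
    have h3 := Real.log_two_lt_d9
    norm_num at h2 h3 ⊢
    linarith

/-- **The number of the case C3.** -/
theorem S4_num (hRT : RTmain) (hR : NUM.RTlow) {d : ℕ} (hd : Even d) (h : 2 ≤ d) :
    TT d ≤ Real.log (8 / 7) := by
  have h1 := TT_le_all hRT hR hd h
  have h2 := Real.one_sub_inv_le_log_of_pos (x := 8 / 7) (by norm_num)
  norm_num at h2 ⊢
  linarith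

/-- **The number of the case C2, one non-full neighbour.** -/
theorem S2_num (hRT : RTmain) (hR : NUM.RTlow) {d : ℕ} (hd : Even d) (h : 2 ≤ d) :
    TT d + hs d ≤ Real.log (4 / 3) := by
  have hl : (2 : ℝ) / 7 ≤ Real.log (4 / 3) := by
    have h1 := Real.le_log_one_add_of_nonneg (x := 1 / 3) (by norm_num)
    norm_num at h1 ⊢
    linarith
  have hl2 := Real.log_two_lt_d9
  refine le_trans ?_ hl
  rcases Nat.lt_or_ge d 4 with h4 | h4
  · have h2 : d = 2 := by
      obtain ⟨r, rfl⟩ := hd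
      omega
    rw [h2, TT_two, hs_two]
    norm_num at hl2 ⊢
    linarith
  · have hle := hs_le hd h (TT_nonneg hd h)
    have hd4 : (4 : ℝ) ≤ (d : ℝ) := by exact_mod_cast h4
    have hp := Real.pi_lt_d6
    have hp0 := Real.pi_pos
    have h3 := NumC23_log (x := Real.pi * ((d : ℝ) + 1) / 2) (by positivity) 3
    have h5 : hs d ≤ Real.pi / 32 + (3 * Real.log 2 - 1) / (2 * ((d : ℝ) + 1)) := by
      refine hle.trans ?_
      rw [div_add_div _ _ (by norm_num) (by positivity), div_le_div_iff₀ (by positivity)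
        (by positivity)]
      norm_num at h3 ⊢
      nlinarith
    rcases Nat.lt_or_ge d 6 with h6 | h6
    · have h7 : d = 4 := by
        obtain ⟨r, rfl⟩ := hd
        omega
      subst h7
      obtain ⟨-, t4, -⟩ := TT_tab hR
      norm_num at h5 t4 hl2 hp ⊢
      linarith
    · have hd6 : (6 : ℝ) ≤ (d : ℝ) := by exact_mod_cast h6
      have h8 := TT_le_all hRT hR hd h
      have h9 : (3 * Real.log 2 - 1) / (2 * ((d : ℝ) + 1)) ≤ (11 / 10) / 14 := by
        apply div_le_div₀ (by norm_num) (by norm_num at hl2 ⊢; linarith) (by norm_num)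
          (by linarith)
      norm_num at h9 hp ⊢
      linarith

end MP_a3e05c_co.KL
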