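import Pool.Agent.Lib.MP_a3e05c_co.IRR.NumC4
import Pool.Agent.Lib.MP_a3e05c_co.IRR.NumC23
import Pool.Agent.Lib.MP_a3e05c_co.IRR.Case234
import Pool.Agent.Lib.MP_a3e05c_co.S1.Facts

/-!
# EULER, irregular graphs: the gain of a full neighbour decreases

`D hs D = - TT D - AA D ≤ - AA D ≤ D hs (D - 2)` by the number of the case C4.
-/

open Finset

namespace MP_a3e05c_co.KL

theorem hs_step (hRT : RTmain) (hR : NUM.RTlow) {d : ℕ} (hd : Even d) (h : 2 ≤ d) :
    hs (d + 2) ≤ hs d := by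
  have hd2 : Even (d + 2) := hd.add (by norm_num)
  have h1 := S5_num hRT hR hd2 (by omega)
  have h2 := TT_eq (d := d + 2) (by omega)
  have h3 := TT_nonneg hd2 (by omega)
  have e1 : d + 2 - 2 = d := by omega
  rw [e1] at h1
  have h4 : ((d + 2 : ℕ) : ℝ) * hs (d + 2) ≤ ((d + 2 : ℕ) : ℝ) * hs d := by linarith
  exact le_of_mul_le_mul_left h4 (by positivity)

theorem hsAnti_of (hRT : RTmain) (hR : NUM.RTlow) : HsAnti := by
  intro a b ha hb h2 hab
  obtain ⟨k, hk⟩ : ∃ k, b = a + 2 * k := by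
    obtain ⟨r, rfl⟩ := ha
    obtain ⟨s, rfl⟩ := hb
    exact ⟨s - r, by omega⟩
  subst hk
  clear hb hab
  induction k with
  | zero => exact le_rfl
  | succ k ih =>
    have e1 : a + 2 * (k + 1) = a + 2 * k + 2 := by ring
    rw [e1]
    exact (hs_step hRT hR (ha.add (even_two_mul k)) (by omega)).trans ih

/-- **The gain of a full neighbour decreases with the degree.** -/
theorem hs_anti : HsAnti := hsAnti_of rt_main rt_low

/-- the number of the case C4, without hypotheses -/
theorem s5 {D : ℕ} (hD : Even D) (h : 4 ≤ D) : 0 ≤ AA D + D * hs (D - 2) :=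
  S5_num rt_main rt_low hD h

end MP_a3e05c_co.KL
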