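import Pool.Agent.Lib.MP_a3e05c_co.IRR.Defs
import Pool.Agent.Lib.MP_a3e05c_co.IRR.HsAnti
import Pool.Agent.Lib.MP_a3e05c_co.S1.Facts
import Pool.Agent.Lib.MP_a3e05c_co.S6.Fin
import Pool.Agent.Lib.MP_a3e05c_co.CA.GAnti

/-!
# EULER, final induction: case C5, two adjacent full vertices of maximal degree, at least two private neighbours
-/

open Finset

namespace MP_a3e05c_co.KL

variable {V E : Type} [Fintype V] [DecidableEq V] [Fintype E] [DecidableEq E]

/-- delete `w` (free) and `w₂` (key lemma): scalar inequality S6 -/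
theorem red_C5 {hd : E → Bool → V} (hs : Simple hd) (hev : ∀ v, Even (deg hd v)) {A : Finset V}
    {D : ℕ} (hT : Top hd A D) {w w₂ : V} (hw : w ∈ A) (hwf : Full hd A w) (hwD : deg hd w = D)
    (hw₂ : w₂ ∈ nb hd A w) (hw₂D : deg hd w₂ = D)
    (hall : ∀ u ∈ nb hd A w, Full hd A u) (hall₂ : ∀ u ∈ nb hd A w₂, Full hd A u)
    (hj : 2 ≤ (nb hd A w₂ \ NB hd A w).card) : Red hd A :=
  red_C5_anti rt_low rt_gen rt_main hs_anti CA.gAnti hs hev hT hw hwf hwD hw₂ hw₂D
    hall hall₂ hj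

end MP_a3e05c_co.KL
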