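import Pool.Agent.Lib.MP_a3e05c_co.IRR.Defs
import Pool.Agent.Lib.MP_a3e05c_co.IRR.HsAnti
import Pool.Agent.Lib.MP_a3e05c_co.EX6.Assembly
import Pool.Agent.Lib.MP_a3e05c_co.CA.GAnti
import Pool.Agent.Lib.MP_a3e05c_co.S7.Large

/-!
# EULER, final induction: case C6, two adjacent full vertices of maximal degree, one private neighbour each
-/

open Finset

namespace MP_a3e05c_co.KL

/-- S7 in the form of `EX6/Assembly` -/
theorem s7D {D : ℕ} (hD : Even D) (h2 : 2 ≤ D) : S7D D := by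
  have h := S7_all hD h2
  unfold NUM.ScS7 at h
  unfold S7D
  have e : (1 : ℝ) / 2 + (D : ℝ) * ((D : ℝ) - 2) / (2 * ((D : ℝ) - 1)) =
      ((D : ℝ) - 2) * D / (2 * ((D : ℝ) - 1)) + 1 / 2 := by ring
  rw [e]
  linarith

variable {V E : Type} [Fintype V] [DecidableEq V] [Fintype E] [DecidableEq E]

/-- (1.4) and S7 -/
theorem red_C6 {hd : E → Bool → V} (hs : Simple hd) (hev : ∀ v, Even (deg hd v)) {A : Finset V}
    {D : ℕ} (hT : Top hd A D) {w w₂ : V} (hw : w ∈ A) (hwf : Full hd A w) (hwD : deg hd w = D)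
    (hw₂ : w₂ ∈ nb hd A w) (hw₂D : deg hd w₂ = D)
    (hall : ∀ u ∈ nb hd A w, Full hd A u) (hall₂ : ∀ u ∈ nb hd A w₂, Full hd A u)
    (hj : (nb hd A w₂ \ NB hd A w).card = 1) : Red hd A :=
  red_C6_of (fun a b ha hb h2 hab => hs_anti a b ha hb h2 hab)
    (fun a b ha hb h2 hab => CA.gAnti a b ha hb h2 hab) (fun _ hD h2 => s7D hD h2)
    hs hev hT hw hwf hwD hw₂ hw₂D hall hall₂ hj

end MP_a3e05c_co.KL
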