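import Pool.Agent.Lib.MP_a3e05c_co.C7.Low
import Pool.Agent.Lib.MP_a3e05c_co.C7.Near
import Pool.Agent.Lib.MP_a3e05c_co.C7.Many
import Pool.Agent.Lib.MP_a3e05c_co.SW.Plug

/-!
# EULER, final induction: case C7, a closed block
-/

open Finset

namespace MP_a3e05c_co.KL

variable {V E : Type} [Fintype V] [DecidableEq V] [Fintype E] [DecidableEq E]

/-- the closed neighbourhood of `w` is a union of components: near clique on `D + 1` vertices -/
theorem red_C7 {hd : E → Bool → V} (hs : Simple hd) (hev : ∀ v, Even (deg hd v)) {A : Finset V}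
    {D : ℕ} (_hT : Top hd A D) {w : V} (hw : Twins hd A D w)
    (hc : ∀ u ∈ NB hd A w, nb hd A u ⊆ NB hd A w)
    (IH : ∀ B : Finset V, B.card < A.card → PA hd B ≤ Real.exp (pot hd B)) : Red hd A :=
  C7.red_of (fun {_} hs hev {_} hC {_} hn hodd h3 hw hI =>
    C7.PA_closed C7.rt_low C7.rt_gen SW.hT (SW.h4 C7.rt_low C7.rt_gen)
      (SW.h5 C7.rt_low C7.rt_gen) (C7.whole_near C7.pk_low) C7.many2 hs hev hC hn hodd h3 hw hI)
    hs hev hw hc IH

end MP_a3e05c_co.KL
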