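import Pool.Agent.Lib.MP_a3e05c_co.IRR.Defs
import Pool.Agent.Lib.MP_a3e05c_co.IRR.HsAnti
import Pool.Agent.Lib.MP_a3e05c_co.EX.Sc

/-!
# EULER, final induction: case C8, a block with exits
-/

open Finset

namespace MP_a3e05c_co.KL

variable {V E : Type} [Fintype V] [DecidableEq V] [Fintype E] [DecidableEq E]

/-- delete all twins of `w` and one vertex `x` with an exit -/
theorem red_C8 {hd : E → Bool → V} (hs : Simple hd) (hev : ∀ v, Even (deg hd v)) {A : Finset V}
    {D : ℕ} (hT : Top hd A D) {w u y : V} (hw : Twins hd A D w) (hu : u ∈ nb hd A w)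
    (hy : y ∈ nb hd A u) (hyQ : y ∉ NB hd A w) : Red hd A :=
  red_C8_of hs hev (stepOne hs hev) (fun _ hD h4 => scE hs_anti hD h4) hT hw hu hy hyQ

end MP_a3e05c_co.KL
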