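import Pool.Agent.Lib.MP_a3e05c_co.KL.StepM
import Pool.Agent.Lib.MP_a3e05c_co.KL.ClosedA
import Pool.Agent.Lib.MP_a3e05c_co.KL.Pot

/-!
# EULER: the final induction, definitions and calculus of the slack
-/

open Finset

namespace MP_a3e05c_co.KL

variable {V E : Type} [DecidableEq V] [Fintype E] [DecidableEq E]

/-- the potential of the alive set `A` -/
noncomputable def pot (hd : E → Bool → V) (A : Finset V) : ℝ :=
  ∑ v ∈ A, phi (deg hd v) (kk hd A v)

/-- `PA hd A ≤ exp (pot A - pot B - x) * PA hd B`: the vertices of `A \ B` can be deleted with the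
slack `x` -/
def Sl (hd : E → Bool → V) (A B : Finset V) (x : ℝ) : Prop :=
  B ⊆ A ∧ PA hd A ≤ Real.exp (pot hd A - pot hd B - x) * PA hd B

/-- some vertices of `A` can be deleted without loss -/
def Red (hd : E → Bool → V) (A : Finset V) : Prop :=
  ∃ B, B ⊂ A ∧ PA hd A ≤ Real.exp (pot hd A - pot hd B) * PA hd B

/-- every alive vertex has at most `D` alive neighbours, and exactly `D` only if it is full -/
structure Top (hd : E → Bool → V) (A : Finset V) (D : ℕ) : Prop where
  le : ∀ v ∈ A, kk hd A v ≤ D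
  lt : ∀ v ∈ A, kk hd A v < deg hd v → kk hd A v < D

/-- all edges at `v` go to alive vertices -/
def Full (hd : E → Bool → V) (A : Finset V) (v : V) : Prop := kk hd A v = deg hd v

/-- closed neighbourhood -/
def NB (hd : E → Bool → V) (A : Finset V) (w : V) : Finset V := insert w (nb hd A w)

/-- start of a block: `w` is full of the maximal degree `D`, everything up to distance 2 is full,
all neighbours of degree `D` are twins of `w`, and there is at least one of them -/
structure Twins (hd : E → Bool → V) (A : Finset V) (D : ℕ) (w : V) : Prop where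
  mem : w ∈ A
  full : Full hd A w
  deg_eq : deg hd w = D
  nb_full : ∀ u ∈ nb hd A w, Full hd A u
  nb2_full : ∀ u ∈ nb hd A w, ∀ y ∈ nb hd A u, Full hd A y
  twin : ∀ v ∈ nb hd A w, deg hd v = D → NB hd A v = NB hd A w
  two : ∃ v ∈ nb hd A w, deg hd v = D

/-- gain of the neighbours of `w` when `w` is deleted -/
noncomputable def gain (hd : E → Bool → V) (A : Finset V) (w : V) : ℝ :=
  ∑ u ∈ nb hd A w, (phi (deg hd u) (kk hd A u) - phi (deg hd u) (kk hd A u - 1))

omit [DecidableEq E] in
theorem mem_nb {hd : E → Bool → V} {A : Finset V} {w u : V} :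
    u ∈ nb hd A w ↔ u ∈ A ∧ Adj hd w u := by
  unfold nb
  rw [mem_filter]

theorem Sl.refl (hd : E → Bool → V) (A : Finset V) : Sl hd A A 0 := by
  refine ⟨subset_rfl, ?_⟩
  rw [sub_self, sub_zero, Real.exp_zero, one_mul]

theorem Sl.trans {hd : E → Bool → V} {A B C : Finset V} {x y : ℝ} (h1 : Sl hd A B x)
    (h2 : Sl hd B C y) : Sl hd A C (x + y) := by
  refine ⟨h2.1.trans h1.1, h1.2.trans ?_⟩
  have h3 := mul_le_mul_of_nonneg_left h2.2 (Real.exp_pos (pot hd A - pot hd B - x)).le
  refine h3.trans (le_of_eq ?_)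
  rw [← mul_assoc, ← Real.exp_add]
  congr 2
  ring

variable [Fintype V]

theorem Sl.mono {hd : E → Bool → V} {A B : Finset V} {x y : ℝ} (h1 : Sl hd A B x) (h : y ≤ x) :
    Sl hd A B y := by
  refine ⟨h1.1, h1.2.trans ?_⟩
  refine mul_le_mul_of_nonneg_right (Real.exp_le_exp.2 (by linarith)) (PA_nonneg hd B)

theorem Sl.red {hd : E → Bool → V} {A B : Finset V} {x : ℝ} (h1 : Sl hd A B x) (hx : 0 ≤ x)
    (hne : B ≠ A) : Red hd A := by
  refine ⟨B, h1.1.ssubset_of_ne hne, ?_⟩
  have h2 := (h1.mono hx).2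
  rwa [sub_zero] at h2

/-- change of the potential when `w` is deleted -/
theorem pot_erase {hd : E → Bool → V} (hs : Simple hd) {A : Finset V} {w : V} (hw : w ∈ A) :
    pot hd A = phi (deg hd w) (kk hd A w) + pot hd (A.erase w) + gain hd A w := by
  unfold pot gain
  have h1 : ∑ v ∈ A, phi (deg hd v) (kk hd A v) =
      phi (deg hd w) (kk hd A w) + ∑ v ∈ A.erase w, phi (deg hd v) (kk hd A v) :=
    (Finset.add_sum_erase A (fun v => phi (deg hd v) (kk hd A v)) hw).symm
  have h2 : ∀ v ∈ A.erase w, phi (deg hd v) (kk hd A v) =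
      phi (deg hd v) (kk hd (A.erase w) v) + (if Adj hd w v then
        (phi (deg hd v) (kk hd A v) - phi (deg hd v) (kk hd A v - 1)) else 0) := by
    intro v _
    have h3 := kk_erase hs hw v
    by_cases ha : Adj hd w v
    · rw [if_pos ha] at h3 ⊢
      have h4 : kk hd A v - 1 = kk hd (A.erase w) v := by omega
      rw [h4]
      ring
    · rw [if_neg ha] at h3 ⊢
      rw [h3, add_zero, add_zero]
  have h5 : (A.erase w).filter (fun v => Adj hd w v) = nb hd A w := by
    ext u
    rw [mem_filter, mem_erase, mem_nb]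
    constructor
    · rintro ⟨⟨_, h⟩, h'⟩
      exact ⟨h, h'⟩
    · rintro ⟨h, h'⟩
      exact ⟨⟨Adj.ne hs h', h⟩, h'⟩
  rw [h1, Finset.sum_congr rfl h2, Finset.sum_add_distrib, ← Finset.sum_filter, h5]
  ring

/-- deletion of `w` with cost `exp z` -/
theorem Sl.erase {hd : E → Bool → V} (hs : Simple hd) {A : Finset V} {w : V} (hw : w ∈ A) {z : ℝ}
    (hz : PA hd A ≤ Real.exp z * PA hd (A.erase w)) :
    Sl hd A (A.erase w) (phi (deg hd w) (kk hd A w) + gain hd A w - z) := by
  refine ⟨erase_subset _ _, ?_⟩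
  rw [pot_erase hs hw]
  refine hz.trans (le_of_eq ?_)
  congr 2
  ring

/-- the first deletion is free -/
theorem Sl.free {hd : E → Bool → V} (hs : Simple hd) {A : Finset V} {w : V} (hw : w ∈ A) :
    Sl hd A (A.erase w) (phi (deg hd w) (kk hd A w) + gain hd A w) := by
  have h := Sl.erase hs hw (z := 0) (by
    rw [Real.exp_zero, one_mul]
    exact PA_mono (erase_subset _ _))
  rwa [sub_zero] at h

/-- deletion of `w` by the key lemma -/
theorem Sl.step {hd : E → Bool → V} (hs : Simple hd) (hev : ∀ v, Even (deg hd v)) {A : Finset V}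
    {w : V} (hw : w ∈ A) {z : ℝ}
    (hz : FM (kk hd A w) (deg hd w - kk hd A w)
      ((kk hd A w : ℝ) - ∑ u ∈ nb hd A w, rh (deg hd u) (kk hd A u)) ≤ Real.exp z) :
    Sl hd A (A.erase w) (phi (deg hd w) (kk hd A w) + gain hd A w - z) :=
  Sl.erase hs hw ((PA_stepM hs hev hw).trans (mul_le_mul_of_nonneg_right hz (PA_nonneg hd _)))

theorem erase_ne {A : Finset V} {w : V} (hw : w ∈ A) : A.erase w ≠ A := by
  intro h
  rw [← h] at hw
  exact notMem_erase _ _ hw

end MP_a3e05c_co.KL
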