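import Pool.Agent.Lib.MP_a3e05c_co.S3D.Small
import Pool.Agent.Lib.MP_a3e05c_co.S3N.Main

/-!
# EULER, final induction: case C2, a full vertex of maximal degree with at least two non-full neighbours
-/

open Finset

namespace MP_a3e05c_co.KL

variable {V E : Type} [Fintype V] [DecidableEq V] [Fintype E] [DecidableEq E]

/-- scalar inequality S3 -/
theorem red_S3 {hd : E → Bool → V} (hs : Simple hd) (hev : ∀ v, Even (deg hd v)) {A : Finset V}
    {D : ℕ} (hT : Top hd A D) {w : V} (hw : w ∈ A) (hwf : Full hd A w) (hwD : deg hd w = D)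
    (h2 : 2 ≤ ((nb hd A w).filter fun u => kk hd A u < deg hd u).card) : Red hd A := by
  have hDe : Even D := hwD ▸ hev w
  have hD2 : 2 ≤ D := by
    refine h2.trans ((card_le_card (filter_subset _ _)).trans ?_)
    rw [card_nb hs, hwf, hwD]
  have h : D = 2 ∨ D = 4 ∨ 6 ≤ D := by
    obtain ⟨r, rfl⟩ := hDe
    omega
  rcases h with rfl | rfl | h
  · exact S3_two hs hev hT hw hwf hwD h2
  · exact S3_four hs hev hT hw hwf hwD h2
  · exact S3_six hs hev hT hw hwf hwD h2 h
      (fun d hd h3 h4 => hs_anti d D hd hDe h3 h4) (scS3 hDe h)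

end MP_a3e05c_co.KL
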