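import Pool.Agent.Lib.MP_a3e05c_co.IRR.C1
import Pool.Agent.Lib.MP_a3e05c_co.IRR.C2
import Pool.Agent.Lib.MP_a3e05c_co.IRR.S3
import Pool.Agent.Lib.MP_a3e05c_co.IRR.C3
import Pool.Agent.Lib.MP_a3e05c_co.IRR.C4
import Pool.Agent.Lib.MP_a3e05c_co.IRR.C5
import Pool.Agent.Lib.MP_a3e05c_co.IRR.C6
import Pool.Agent.Lib.MP_a3e05c_co.IRR.C7
import Pool.Agent.Lib.MP_a3e05c_co.IRR.C8

/-!
# EULER: the final induction
-/

open Finset

namespace MP_a3e05c_co.KL

variable {V E : Type} [Fintype V] [DecidableEq V] [Fintype E] [DecidableEq E]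

theorem NB_eq_of_j {hd : E → Bool → V} (hs : Simple hd) {A : Finset V} {D : ℕ} {w w₂ : V}
    (hw : w ∈ A) (hwf : Full hd A w) (hwD : deg hd w = D) (hw₂ : w₂ ∈ nb hd A w)
    (hw₂f : Full hd A w₂) (hw₂D : deg hd w₂ = D)
    (hj : (nb hd A w₂ \ NB hd A w).card = 0) : NB hd A w₂ = NB hd A w := by
  have h1 : nb hd A w₂ ⊆ NB hd A w := by
    rw [card_eq_zero, sdiff_eq_empty_iff_subset] at hj
    exact hj
  have h2 : NB hd A w₂ ⊆ NB hd A w := by
    intro u hu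
    rcases mem_insert.1 hu with rfl | hu
    · exact mem_insert_of_mem hw₂
    · exact h1 hu
  have hn : ∀ v, v ∉ nb hd A v := fun v hv => Adj.ne hs (mem_nb.1 hv).2 rfl
  have h3 : ∀ v, (NB hd A v).card = kk hd A v + 1 := fun v => by
    unfold NB
    rw [card_insert_of_notMem (hn v), card_nb hs]
  refine eq_of_subset_of_card_le h2 ?_
  rw [h3, h3, hwf, hw₂f, hwD, hw₂D]

/-- one of the cases applies to every nonempty alive set -/
theorem red_of_nonempty {hd : E → Bool → V} (hs : Simple hd) (hev : ∀ v, Even (deg hd v))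
    {A : Finset V} (hne : A.Nonempty)
    (IH : ∀ B : Finset V, B.card < A.card → PA hd B ≤ Real.exp (pot hd B)) : Red hd A := by
  obtain ⟨v₀, hv₀, hmax⟩ := exists_max_image A (fun v => kk hd A v) hne
  by_cases h1 : ∃ w ∈ A, kk hd A w < deg hd w ∧ kk hd A w = kk hd A v₀
  · obtain ⟨w, hw, hlt, he⟩ := h1
    exact red_C1 hs hev hw hlt fun v hv => by
      rw [he]
      exact hmax v hv
  push Not at h1
  obtain ⟨D, hD⟩ : ∃ D, D = kk hd A v₀ := ⟨_, rfl⟩
  have hT : Top hd A D := by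
    refine ⟨fun v hv => by rw [hD]; exact hmax v hv, fun v hv hlt => ?_⟩
    rw [hD]
    exact lt_of_le_of_ne (hmax v hv) (h1 v hv hlt)
  have hnf : ∀ v, ¬ kk hd A v < deg hd v → Full hd A v := fun v h =>
    le_antisymm (kk_le_deg hs A v) (not_lt.1 h)
  have hv₀f : Full hd A v₀ := hnf v₀ fun h => h1 v₀ hv₀ h rfl
  have hv₀D : deg hd v₀ = D := by rw [hD, hv₀f]
  -- C2
  by_cases h2 : ∃ w ∈ A, Full hd A w ∧ deg hd w = D ∧ ∃ y ∈ nb hd A w, kk hd A y < deg hd y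
  · obtain ⟨w, hw, hwf, hwD, y, hy, hyk⟩ := h2
    by_cases h3 : 2 ≤ ((nb hd A w).filter fun u => kk hd A u < deg hd u).card
    · exact red_S3 hs hev hT hw hwf hwD h3
    · refine red_C2 hs hev hT hw hwf hwD hy hyk fun u hu huy => hnf u fun h4 => h3 ?_
      have h5 : ({u, y} : Finset V) ⊆ (nb hd A w).filter fun u => kk hd A u < deg hd u := by
        intro z hz
        rw [mem_insert, mem_singleton] at hz
        rcases hz with rfl | rfl
        · exact mem_filter.2 ⟨hu, h4⟩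
        · exact mem_filter.2 ⟨hy, hyk⟩
      have h6 := card_le_card h5
      rwa [card_pair huy] at h6
  push Not at h2
  have hall : ∀ w ∈ A, Full hd A w → deg hd w = D → ∀ u ∈ nb hd A w, Full hd A u :=
    fun w hw hwf hwD u hu => hnf u (not_lt.2 (h2 w hw hwf hwD u hu))
  have hX : ∀ w ∈ A, Full hd A w → deg hd w = D → ∀ u ∈ nb hd A w, u ∈ A :=
    fun w _ _ _ u hu => (mem_nb.1 hu).1
  -- C3
  by_cases h3 : ∃ w ∈ A, Full hd A w ∧ deg hd w = D ∧ ∃ x ∈ nb hd A w, ∃ y ∈ nb hd A x,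
      kk hd A y < deg hd y
  · obtain ⟨w, hw, hwf, hwD, x, hx, y, hy, hyk⟩ := h3
    refine red_C3 hs hev hT hw hwf hwD hx hy ?_ hyk (hall w hw hwf hwD)
    rintro rfl
    rw [hwf] at hyk
    exact lt_irrefl _ hyk
  push Not at h3
  -- C4
  by_cases h4 : ∃ w ∈ A, Full hd A w ∧ deg hd w = D ∧ ∀ u ∈ nb hd A w, deg hd u ≠ D
  · obtain ⟨w, hw, hwf, hwD, h5⟩ := h4
    exact red_C4 hs hev hT hw hwf hwD (hall w hw hwf hwD) h5
  push Not at h4
  -- C5
  by_cases h5 : ∃ w ∈ A, Full hd A w ∧ deg hd w = D ∧ ∃ w₂ ∈ nb hd A w, deg hd w₂ = D ∧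
      2 ≤ (nb hd A w₂ \ NB hd A w).card
  · obtain ⟨w, hw, hwf, hwD, w₂, hw₂, hw₂D, hj⟩ := h5
    exact red_C5 hs hev hT hw hwf hwD hw₂ hw₂D (hall w hw hwf hwD)
      (hall w₂ (hX w hw hwf hwD w₂ hw₂) (hall w hw hwf hwD w₂ hw₂) hw₂D) hj
  push Not at h5
  -- C6
  by_cases h6 : ∃ w ∈ A, Full hd A w ∧ deg hd w = D ∧ ∃ w₂ ∈ nb hd A w, deg hd w₂ = D ∧
      (nb hd A w₂ \ NB hd A w).card = 1
  · obtain ⟨w, hw, hwf, hwD, w₂, hw₂, hw₂D, hj⟩ := h6
    exact red_C6 hs hev hT hw hwf hwD hw₂ hw₂D (hall w hw hwf hwD)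
      (hall w₂ (hX w hw hwf hwD w₂ hw₂) (hall w hw hwf hwD w₂ hw₂) hw₂D) hj
  push Not at h6
  -- the block of `v₀`
  have hTw : Twins hd A D v₀ := by
    refine ⟨hv₀, hv₀f, hv₀D, hall v₀ hv₀ hv₀f hv₀D, fun u hu y hy => hnf y
      (not_lt.2 (h3 v₀ hv₀ hv₀f hv₀D u hu y hy)), fun v hv hvD => ?_, ?_⟩
    · have h7 := h5 v₀ hv₀ hv₀f hv₀D v hv hvD
      have h8 := h6 v₀ hv₀ hv₀f hv₀D v hv hvD
      exact NB_eq_of_j hs hv₀ hv₀f hv₀D hv (hall v₀ hv₀ hv₀f hv₀D v hv) hvD (by omega)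
    · exact h4 v₀ hv₀ hv₀f hv₀D
  by_cases h7 : ∀ u ∈ NB hd A v₀, nb hd A u ⊆ NB hd A v₀
  · exact red_C7 hs hev hT hTw h7 IH
  push Not at h7
  obtain ⟨u, hu, h8⟩ := h7
  obtain ⟨y, hy, hyQ⟩ := not_subset.1 h8
  rcases mem_insert.1 hu with rfl | hu
  · exact absurd (mem_insert_of_mem hy) hyQ
  · exact red_C8 hs hev hT hTw hu hy hyQ

/-- **CLAIM(A).** -/
theorem claim {hd : E → Bool → V} (hs : Simple hd) (hev : ∀ v, Even (deg hd v)) (A : Finset V) :
    PA hd A ≤ Real.exp (pot hd A) := by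
  induction hn : A.card using Nat.strong_induction_on generalizing A with
  | _ n ih =>
    rcases A.eq_empty_or_nonempty with rfl | hne
    · rw [PA_empty]
      unfold pot
      simp
    · obtain ⟨B, hBA, hB⟩ := red_of_nonempty hs hev hne fun B hB => ih B.card (by omega) B rfl
      have h1 := ih B.card (by rw [← hn]; exact card_lt_card hBA) B rfl
      refine hB.trans ((mul_le_mul_of_nonneg_left h1 (Real.exp_pos _).le).trans (le_of_eq ?_))
      rw [← Real.exp_add]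
      congr 1
      ring

/-- **Schrijver's conjecture**, in the notation of the key lemma. -/
theorem PA_univ_le {hd : E → Bool → V} (hs : Simple hd) (hev : ∀ v, Even (deg hd v)) :
    PA hd univ ≤ Real.exp (∑ v, AA (deg hd v)) := by
  have h1 := claim hs hev univ
  have h2 : ∀ v, kk hd univ v = deg hd v := by
    intro v
    unfold kk btw deg
    congr 1
    ext e
    simp
  have h3 : pot hd univ = ∑ v, AA (deg hd v) := by
    unfold pot
    refine Finset.sum_congr rfl fun v _ => ?_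
    rw [h2 v, phi_full]
  rwa [h3] at h1

end MP_a3e05c_co.KL
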